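import Pool.Agent.R171.YG.Stm

set_option autoImplicit false

namespace Pool.Agent.R868.YG

open Pool.Agent.R171.YG

theorem stmtD1 : StmtD1 := by
  classical
  intro s τ hs b c hbc hτ h
  have hpi := Real.pi_pos
  set S := Finset.Ioo b c with hS
  -- matched and unmatched indices
  have hsplit := Finset.sum_filter_add_sum_filter_not S (fun k ↦ ∃ d : ℤ, s b + s c - s k = s d) τ
  have h0 : 0 ≤ ∑ k ∈ S.filter (fun k ↦ ¬ ∃ d : ℤ, s b + s c - s k = s d), τ k := by
    refine Finset.sum_nonneg fun k hk ↦ ?_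
    rw [Finset.mem_filter] at hk
    exact (h k hk.1 (fun he ↦ hk.2 ⟨k, he⟩)).2 hk.2
  set S1 := S.filter (fun k ↦ ∃ d : ℤ, s b + s c - s k = s d) with hS1
  let σ : ℤ → ℤ := fun k ↦ if h : ∃ d : ℤ, s b + s c - s k = s d then h.choose else k
  have hσ : ∀ k ∈ S1, s b + s c - s k = s (σ k) := by
    intro k hk
    have hk' := (Finset.mem_filter.1 hk).2
    simp only [σ]
    rw [dif_pos hk']
    exact hk'.choose_spec
  have hσS : ∀ k ∈ S1, σ k ∈ S1 := by
    intro k hk
    have h1 := hσ k hk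
    have hk' := Finset.mem_filter.1 hk
    have hkI := Finset.mem_Ioo.1 hk'.1
    have hb := hs hkI.1
    have hc := hs hkI.2
    rw [hS1, Finset.mem_filter, hS, Finset.mem_Ioo]
    refine ⟨⟨hs.lt_iff_lt.1 ?_, hs.lt_iff_lt.1 ?_⟩, k, ?_⟩ <;> linarith
  have hσσ : ∀ k ∈ S1, σ (σ k) = k := by
    intro k hk
    apply hs.injective
    rw [← hσ _ (hσS k hk), ← hσ k hk]
    ring
  have hsum : ∑ k ∈ S1, τ (σ k) = ∑ k ∈ S1, τ k :=
    Finset.sum_bij (fun k _ ↦ σ k) hσS
      (fun a ha a' ha' he ↦ by rw [← hσσ a ha, he, hσσ a' ha'])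
      (fun k hk ↦ ⟨σ k, hσS k hk, hσσ k hk⟩) (fun _ _ ↦ rfl)
  have h2 : -(2 * Real.pi) ≤ ∑ k ∈ S1, (τ k + τ (σ k)) := by
    have h3 : ∀ k ∈ S1, (if s b + s c - s k = s k then -(2 * Real.pi) else 0) ≤ τ k + τ (σ k) := by
      intro k hk
      have hkS := (Finset.mem_filter.1 hk).1
      split_ifs with he
      · have : σ k = k := by
          apply hs.injective
          rw [← hσ k hk, he]
        rw [this]
        linarith [hτ k hkS]
      · exact (h k hkS he).1 _ (hσ k hk)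
    refine le_trans ?_ (Finset.sum_le_sum h3)
    rw [← Finset.sum_filter, Finset.sum_const, nsmul_eq_mul]
    have h4 : (S1.filter (fun k ↦ s b + s c - s k = s k)).card ≤ 1 := by
      rw [Finset.card_le_one]
      intro x hx y hy
      have hx' := (Finset.mem_filter.1 hx).2
      have hy' := (Finset.mem_filter.1 hy).2
      apply hs.injective
      linarith
    have h5 : ((S1.filter (fun k ↦ s b + s c - s k = s k)).card : ℝ) ≤ 1 := by exact_mod_cast h4
    nlinarith
  rw [Finset.sum_add_distrib, hsum] at h2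
  linarith

/-- the number of indices with turn at least `π / 2` -/
theorem sharp_card (τ : ℤ → ℝ) (a b : ℤ) (h0 : ∀ k ∈ Finset.Icc a b, 0 ≤ τ k)
    (h1 : ∑ k ∈ Finset.Icc a b, τ k ≤ 3 * Real.pi) :
    ((Finset.Icc a b).filter (fun k ↦ Real.pi / 2 ≤ τ k)).card ≤ 6 := by
  have hpi := Real.pi_pos
  have h2 : ((Finset.Icc a b).filter (fun k ↦ Real.pi / 2 ≤ τ k)).card * (Real.pi / 2) ≤
      3 * Real.pi := by
    calc (((Finset.Icc a b).filter (fun k ↦ Real.pi / 2 ≤ τ k)).card : ℝ) * (Real.pi / 2)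
        = ∑ k ∈ (Finset.Icc a b).filter (fun k ↦ Real.pi / 2 ≤ τ k), Real.pi / 2 := by
          rw [Finset.sum_const, nsmul_eq_mul]
      _ ≤ ∑ k ∈ (Finset.Icc a b).filter (fun k ↦ Real.pi / 2 ≤ τ k), τ k :=
          Finset.sum_le_sum fun k hk ↦ (Finset.mem_filter.1 hk).2
      _ ≤ ∑ k ∈ Finset.Icc a b, τ k :=
          Finset.sum_le_sum_of_subset_of_nonneg (Finset.filter_subset _ _)
            (fun k hk _ ↦ h0 k hk)
      _ ≤ _ := h1
  have h3 : (((Finset.Icc a b).filter (fun k ↦ Real.pi / 2 ≤ τ k)).card : ℝ) ≤ 6 := by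
    by_contra hc
    push Not at hc
    nlinarith
  exact_mod_cast h3

theorem stmtD2 : StmtD2 := by
  classical
  intro n hn τ
  have hpi := Real.pi_pos
  have hsub : Good n τ ⊆ ↑((Finset.Icc (-(n : ℤ)) n) ×ˢ (Finset.Icc (-(n : ℤ)) (2 * n))) := by
    rintro ⟨a, b⟩ ⟨h1, h2, h3, h4, -⟩
    simp only [Finset.coe_product, Set.mem_prod, Finset.mem_coe, Finset.mem_Icc] at *
    omega
  have hfin : (Good n τ).Finite := (Finset.finite_toSet _).subset hsub
  refine ⟨hfin, ?_⟩
  set G1 : Set (ℤ × ℤ) := {q | q ∈ Good n τ ∧ Real.pi / 2 ≤ τ q.2} with hG1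
  set G2 : Set (ℤ × ℤ) := {q | q ∈ Good n τ ∧ Real.pi / 2 ≤ τ q.1} with hG2
  have hun : Good n τ ⊆ G1 ∪ G2 := by
    intro q hq
    have h6 := hq.2.2.2.2.2.1
    by_cases h : Real.pi / 2 ≤ τ q.2
    · exact Or.inl ⟨hq, h⟩
    · push Not at h
      exact Or.inr ⟨hq, by linarith⟩
  have hf1 : G1.Finite := hfin.subset fun q hq ↦ hq.1
  have hf2 : G2.Finite := hfin.subset fun q hq ↦ hq.1
  have hc1 : G1.ncard ≤ ((Finset.Icc (-(n : ℤ)) n) ×ˢ (Finset.range 7)).card := by
    rw [← Set.ncard_coe_finset]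
    refine Set.ncard_le_ncard_of_injOn
      (fun q : ℤ × ℤ ↦ (q.1, ((Finset.Ioc q.1 q.2).filter (fun k ↦ Real.pi / 2 ≤ τ k)).card))
      ?_ ?_ (Finset.finite_toSet _)
    · rintro ⟨a, b⟩ ⟨⟨h1, h2, h3, h4, h5, h6, h7⟩, h8⟩
      simp only [Finset.coe_product, Set.mem_prod, Finset.mem_coe, Finset.mem_Icc,
        Finset.mem_range] at *
      refine ⟨⟨h1, h2⟩, ?_⟩
      have := sharp_card τ a b (fun k hk ↦ h5 k (Finset.mem_Icc.1 hk)) h7
      have h9 : ((Finset.Ioc a b).filter (fun k ↦ Real.pi / 2 ≤ τ k)).card ≤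
          ((Finset.Icc a b).filter (fun k ↦ Real.pi / 2 ≤ τ k)).card :=
        Finset.card_le_card (Finset.filter_subset_filter _ Finset.Ioc_subset_Icc_self)
      omega
    · have key : ∀ a b b' : ℤ, a < b → b < b' → Real.pi / 2 ≤ τ b' →
          ((Finset.Ioc a b).filter (fun k ↦ Real.pi / 2 ≤ τ k)).card <
            ((Finset.Ioc a b').filter (fun k ↦ Real.pi / 2 ≤ τ k)).card := by
        intro a b b' h0 h1 h2
        apply Finset.card_lt_card
        rw [Finset.ssubset_iff_of_subset]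
        · refine ⟨b', ?_, ?_⟩
          · simp only [Finset.mem_filter, Finset.mem_Ioc]
            exact ⟨⟨by omega, le_rfl⟩, h2⟩
          · simp only [Finset.mem_filter, Finset.mem_Ioc]
            rintro ⟨⟨_, h⟩, _⟩
            omega
        · apply Finset.filter_subset_filter
          intro x hx
          rw [Finset.mem_Ioc] at *
          omega
      rintro ⟨a, b⟩ ⟨⟨h1, h2, h3, h4, h5, h6, h7⟩, h8⟩ ⟨a', b'⟩
        ⟨⟨h1', h2', h3', h4', h5', h6', h7'⟩, h8'⟩ he
      simp only [Prod.mk.injEq] at he h1 h2 h3 h4 h8 h1' h2' h3' h4' h8' ⊢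
      obtain ⟨he1, he2⟩ := he
      subst he1
      refine ⟨rfl, ?_⟩
      rcases lt_trichotomy b b' with hlt | heq | hgt
      · have := key a b b' h3 hlt h8'
        omega
      · exact heq
      · have := key a b' b h3' hgt h8
        omega
  have hc2 : G2.ncard ≤ ((Finset.Icc (-(n : ℤ)) (2 * n)) ×ˢ (Finset.range 7)).card := by
    rw [← Set.ncard_coe_finset]
    refine Set.ncard_le_ncard_of_injOn
      (fun q : ℤ × ℤ ↦ (q.2, ((Finset.Ico q.1 q.2).filter (fun k ↦ Real.pi / 2 ≤ τ k)).card))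
      ?_ ?_ (Finset.finite_toSet _)
    · rintro ⟨a, b⟩ ⟨⟨h1, h2, h3, h4, h5, h6, h7⟩, h8⟩
      simp only [Finset.coe_product, Set.mem_prod, Finset.mem_coe, Finset.mem_Icc,
        Finset.mem_range] at *
      refine ⟨⟨by omega, by omega⟩, ?_⟩
      have := sharp_card τ a b (fun k hk ↦ h5 k (Finset.mem_Icc.1 hk)) h7
      have h9 : ((Finset.Ico a b).filter (fun k ↦ Real.pi / 2 ≤ τ k)).card ≤
          ((Finset.Icc a b).filter (fun k ↦ Real.pi / 2 ≤ τ k)).card :=
        Finset.card_le_card (Finset.filter_subset_filter _ Finset.Ico_subset_Icc_self)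
      omega
    · have key : ∀ a a' b : ℤ, a < b → a' < a → Real.pi / 2 ≤ τ a' →
          ((Finset.Ico a b).filter (fun k ↦ Real.pi / 2 ≤ τ k)).card <
            ((Finset.Ico a' b).filter (fun k ↦ Real.pi / 2 ≤ τ k)).card := by
        intro a a' b h0 h1 h2
        apply Finset.card_lt_card
        rw [Finset.ssubset_iff_of_subset]
        · refine ⟨a', ?_, ?_⟩
          · simp only [Finset.mem_filter, Finset.mem_Ico]
            exact ⟨⟨le_rfl, by omega⟩, h2⟩
          · simp only [Finset.mem_filter, Finset.mem_Ico]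
            rintro ⟨⟨h, _⟩, _⟩
            omega
        · apply Finset.filter_subset_filter
          intro x hx
          rw [Finset.mem_Ico] at *
          omega
      rintro ⟨a, b⟩ ⟨⟨h1, h2, h3, h4, h5, h6, h7⟩, h8⟩ ⟨a', b'⟩
        ⟨⟨h1', h2', h3', h4', h5', h6', h7'⟩, h8'⟩ he
      simp only [Prod.mk.injEq] at he h1 h2 h3 h4 h8 h1' h2' h3' h4' h8' ⊢
      obtain ⟨he1, he2⟩ := he
      subst he1
      refine ⟨?_, rfl⟩
      rcases lt_trichotomy a a' with hlt | heq | hgt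
      · have := key a' a b h3' hlt h8
        omega
      · exact heq
      · have := key a a' b h3 hgt h8'
        omega
  have hle := (Set.ncard_le_ncard hun (hf1.union hf2)).trans (Set.ncard_union_le G1 G2)
  rw [Finset.card_product, Int.card_Icc, Finset.card_range] at hc1 hc2
  have e1 : ((n : ℤ) + 1 - -(n : ℤ)).toNat = 2 * n + 1 := by omega
  have e2 : ((2 * n : ℤ) + 1 - -(n : ℤ)).toNat = 3 * n + 1 := by omega
  rw [e1] at hc1
  rw [e2] at hc2
  omega

end Pool.Agent.R868.YG
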